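import Pool.Agent.H608R5.KL.Stm

/-!
KL-KD: the degrees
-/

set_option autoImplicit false

namespace Pool.Agent.TH230.KL

open Pool.Agent.H608R5.KL Finset

theorem sum4 (f : ZMod 4 → ℝ) : ∑ d, f d = f 0 + f 1 + f 2 + f 3 := Fin.sum_univ_four f

theorem s_one {M : ℕ} : ∑ _y : I M, (1 : ℝ) = 2 * M := by
  simp [Fintype.card_prod]

theorem s_dlt {M : ℕ} (x : I M) : ∑ y : I M, dlt x y = 1 := by
  simp [dlt]

theorem s_dlt' {M : ℕ} (x : I M) : ∑ y : I M, dlt y x = 1 := by
  simp [dlt]

theorem s_sam {M : ℕ} (x : I M) : ∑ y : I M, sam x y = M := by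
  obtain ⟨b, j⟩ := x
  unfold sam
  rw [Fintype.sum_prod_type, Fintype.sum_bool]
  cases b <;> simp

theorem s_sam' {M : ℕ} (x : I M) : ∑ y : I M, sam y x = M := by
  rw [← s_sam x]
  refine Finset.sum_congr rfl fun y _ => ?_
  simp only [sam, eq_comm]

theorem s_S {M : ℕ} (x : I M) : ∑ d : ZMod 4, ∑ y : I M, S d x y = 6 * M - 1 := by
  rw [sum4]
  have h0 : ∑ y : I M, S 0 x y = 2 * M - 1 := by
    simp only [S, if_true]
    rw [Finset.sum_sub_distrib, s_one, s_dlt]
  have h1 : ∑ y : I M, S 1 x y = 2 * M := by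
    rw [← s_one]
    rfl
  have h2 : ∑ y : I M, S 2 x y = 0 := by
    have : ∀ y : I M, S 2 x y = 0 := fun y => by
      unfold S
      rw [if_neg (by decide), if_pos rfl]
    simp [this]
  have h3 : ∑ y : I M, S 3 x y = 2 * M := by
    rw [← s_one]
    refine Finset.sum_congr rfl fun y _ => ?_
    unfold S
    rw [if_neg (by decide), if_neg (by decide)]
  rw [h0, h1, h2, h3]
  ring

theorem T0 {M : ℕ} (x y : I M) : T 0 x y = 1 := by
  unfold T
  rw [if_pos rfl]

theorem T1 {M : ℕ} (x y : I M) : T 1 x y = sam x y - dlt x y := by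
  unfold T
  rw [if_neg (by decide), if_neg (by decide), if_pos rfl]

theorem T2 {M : ℕ} (x y : I M) : T 2 x y = 0 := by
  unfold T
  rw [if_neg (by decide), if_neg (by decide), if_neg (by decide)]

theorem T3 {M : ℕ} (x y : I M) : T 3 x y = 1 - dlt x y := by
  unfold T
  rw [if_neg (by decide), if_pos rfl]

theorem s_T {M : ℕ} (x : I M) : ∑ d : ZMod 4, ∑ y : I M, T d x y = 5 * M - 2 := by
  rw [sum4]
  simp only [T0, T1, T2, T3, Finset.sum_sub_distrib, s_one, s_dlt, s_sam, Finset.sum_const_zero]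
  ring

theorem s_T' {M : ℕ} (x : I M) : ∑ d : ZMod 4, ∑ y : I M, T (-d) y x = 5 * M - 2 := by
  rw [sum4]
  have e1 : (-1 : ZMod 4) = 3 := by decide
  have e2 : (-2 : ZMod 4) = 2 := by decide
  have e3 : (-3 : ZMod 4) = 1 := by decide
  rw [neg_zero, e1, e2, e3]
  simp only [T0, T1, T2, T3, Finset.sum_sub_distrib, s_one, s_dlt', s_sam', Finset.sum_const_zero]
  ring

theorem t_KD : S_KD := by
  rintro M - ⟨a, τ, x⟩
  rw [Fintype.sum_prod_type]
  rw [← Equiv.sum_comp (Equiv.addLeft a)]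
  have h1 : ∀ d : ZMod 4, a + d - a = d := fun d => by ring
  have h2 : ∀ d : ZMod 4, a - (a + d) = -d := fun d => by ring
  cases τ
  · have e : ∀ d : ZMod 4, ∑ w : Bool × I M, W (a, false, x) (a + d, w) =
        (∑ y, S d x y) + ∑ y, T d x y := by
      intro d
      rw [Fintype.sum_prod_type, Fintype.sum_bool, add_comm]
      congr 1
      · refine Finset.sum_congr rfl fun y _ => ?_
        simp [W]
      · refine Finset.sum_congr rfl fun y _ => ?_
        simp [W]
    simp only [Equiv.coe_addLeft, e, Finset.sum_add_distrib, s_S, s_T]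
    ring
  · have e : ∀ d : ZMod 4, ∑ w : Bool × I M, W (a, true, x) (a + d, w) =
        (∑ y, S d x y) + ∑ y, T (-d) y x := by
      intro d
      rw [Fintype.sum_prod_type, Fintype.sum_bool]
      congr 1
      · refine Finset.sum_congr rfl fun y _ => ?_
        simp [W]
      · refine Finset.sum_congr rfl fun y _ => ?_
        simp [W]
    simp only [Equiv.coe_addLeft, e, Finset.sum_add_distrib, s_S, s_T']
    ring

end Pool.Agent.TH230.KL
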