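import Pool.Agent.TH230.KL.KD

/-!
KL-K1, KL-K2: variances (second copies)
-/

set_option autoImplicit false

namespace Pool.Agent.TH230.KL

open Pool.Agent.H608R5.KL Finset

theorem dev {M : ℕ} (hM : 1 ≤ M) (A : I M → ℝ) : ∑ x, (A x - mu A) = 0 := by
  have hM' : (M : ℝ) ≠ 0 := by positivity
  have h : ∑ _x : I M, mu A = (∑ _x : I M, (1 : ℝ)) * mu A := by
    rw [Finset.sum_mul]
    simp
  rw [Finset.sum_sub_distrib, h, s_one]
  unfold mu
  field_simp
  ring

/-- two point expansion -/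
theorem expand {M : ℕ} (hM : 1 ≤ M) (K : I M → I M → ℝ) (r : ℝ) (h1 : ∀ x, ∑ y, K x y = r)
    (h2 : ∀ y, ∑ x, K x y = r) (A B : I M → ℝ) (s t : ℝ) :
    ∑ x, ∑ y, K x y * ((A x - mu A) * s + (B y - mu B) * t + (A x - mu A) ^ 2 * 2 +
      (B y - mu B) ^ 2 * 2) = 2 * r * (vr A + vr B) := by
  have e1 : ∀ f : I M → ℝ, ∑ x, ∑ y, K x y * f x = r * ∑ x, f x := by
    intro f
    rw [Finset.mul_sum]
    refine Finset.sum_congr rfl fun x _ => ?_
    rw [← Finset.sum_mul, h1]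
  have e2 : ∀ f : I M → ℝ, ∑ x, ∑ y, K x y * f y = r * ∑ y, f y := by
    intro f
    rw [Finset.sum_comm, Finset.mul_sum]
    refine Finset.sum_congr rfl fun y _ => ?_
    rw [← Finset.sum_mul, h2]
  have e3 : ∀ x y, K x y * ((A x - mu A) * s + (B y - mu B) * t + (A x - mu A) ^ 2 * 2 +
      (B y - mu B) ^ 2 * 2) = K x y * ((A x - mu A) * s + (A x - mu A) ^ 2 * 2) +
        K x y * ((B y - mu B) * t + (B y - mu B) ^ 2 * 2) := fun x y => by ring
  simp only [e3, Finset.sum_add_distrib]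
  rw [e1 (fun x => (A x - mu A) * s + (A x - mu A) ^ 2 * 2),
    e2 (fun y => (B y - mu B) * t + (B y - mu B) ^ 2 * 2), Finset.sum_add_distrib,
    Finset.sum_add_distrib, ← Finset.sum_mul, ← Finset.sum_mul, ← Finset.sum_mul, ← Finset.sum_mul,
    dev hM A, dev hM B]
  unfold vr
  ring

theorem tot {M : ℕ} (K : I M → I M → ℝ) (r : ℝ) (h1 : ∀ x, ∑ y, K x y = r) (c : ℝ) :
    ∑ x, ∑ y, K x y * c = 2 * M * r * c := by
  simp only [← Finset.sum_mul, h1]
  have : ∑ _x : I M, r = (∑ _x : I M, (1 : ℝ)) * r := by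
    rw [Finset.sum_mul]
    simp
  rw [this, s_one]

/-- the two quadratic sums -/
theorem two {M : ℕ} (hM : 1 ≤ M) (K : I M → I M → ℝ) (r : ℝ) (h1 : ∀ x, ∑ y, K x y = r)
    (h2 : ∀ y, ∑ x, K x y = r) (A B : I M → ℝ) :
    (∑ x, ∑ y, K x y * (A x - B y) ^ 2) + ∑ x, ∑ y, K x y * ((A x - mu A) + (B y - mu B)) ^ 2 =
      2 * M * r * (mu A - mu B) ^ 2 + 2 * r * (vr A + vr B) := by
  rw [← expand hM K r h1 h2 A B (2 * (mu A - mu B)) (-2 * (mu A - mu B)),
    ← tot K r h1 ((mu A - mu B) ^ 2), ← Finset.sum_add_distrib, ← Finset.sum_add_distrib]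
  refine Finset.sum_congr rfl fun x _ => ?_
  rw [← Finset.sum_add_distrib, ← Finset.sum_add_distrib]
  refine Finset.sum_congr rfl fun y _ => ?_
  ring

theorem sum_K {M : ℕ} (x : I M) : ∑ y : I M, (sam x y - dlt x y) = M - 1 := by
  rw [Finset.sum_sub_distrib, s_sam, s_dlt]

theorem sum_K' {M : ℕ} (y : I M) : ∑ x : I M, (sam x y - dlt x y) = M - 1 := by
  rw [Finset.sum_sub_distrib, s_sam', s_dlt']

theorem K_nonneg {M : ℕ} (x y : I M) : 0 ≤ sam x y - dlt x y := by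
  unfold sam dlt
  by_cases h : x = y
  · rw [if_pos h, if_pos (by rw [h])]
    norm_num
  · rw [if_neg h]
    split_ifs <;> norm_num

theorem t_K2 : S_K2 := by
  intro M hM A B
  have h := two hM (fun x y => sam x y - dlt x y) (M - 1) sum_K sum_K' A B
  have h0 : 0 ≤ ∑ x : I M, ∑ y : I M, (sam x y - dlt x y) * ((A x - mu A) + (B y - mu B)) ^ 2 :=
    Finset.sum_nonneg fun x _ => Finset.sum_nonneg fun y _ =>
      mul_nonneg (K_nonneg x y) (sq_nonneg _)
  linarith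

theorem prod_dev {M : ℕ} (hM : 1 ≤ M) (A B : I M → ℝ) :
    ∑ x, ∑ y, (A x - mu A) * (B y - mu B) = 0 := by
  rw [← Finset.sum_mul_sum, dev hM A, zero_mul]

theorem all_sq {M : ℕ} (hM : 1 ≤ M) (A B : I M → ℝ) :
    (∑ x, ∑ y, (A x - B y) ^ 2) = (2 * M) ^ 2 * (mu A - mu B) ^ 2 + 2 * M * (vr A + vr B) := by
  have h := two hM (fun _ _ => (1 : ℝ)) (2 * M) (fun x => s_one) (fun x => s_one) A B
  simp only [one_mul] at h
  have h2 := expand hM (fun _ _ => (1 : ℝ)) (2 * M) (fun x => s_one) (fun x => s_one) A B 0 0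
  simp only [one_mul, mul_zero, zero_add] at h2
  have h3 : ∑ x, ∑ y, ((A x - mu A) + (B y - mu B)) ^ 2 =
      (∑ x, ∑ y, ((A x - mu A) ^ 2 * 2 + (B y - mu B) ^ 2 * 2)) / 2 +
        2 * ∑ x, ∑ y, (A x - mu A) * (B y - mu B) := by
    rw [Finset.sum_div, Finset.mul_sum, ← Finset.sum_add_distrib]
    refine Finset.sum_congr rfl fun x _ => ?_
    rw [Finset.sum_div, Finset.mul_sum, ← Finset.sum_add_distrib]
    refine Finset.sum_congr rfl fun y _ => ?_
    ring
  rw [prod_dev hM, h2] at h3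
  rw [h3] at h
  linear_combination h

theorem t_K1 : S_K1 := by
  intro M hM A B
  refine ⟨?_, all_sq hM A B, ?_⟩
  · rw [all_sq hM A A]
    ring
  · have e1 : ∑ x, ∑ y, (1 - dlt x y) * (A x - B y) ^ 2 =
        (∑ x, ∑ y, (A x - B y) ^ 2) - ∑ x, (A x - B x) ^ 2 := by
      rw [← Finset.sum_sub_distrib]
      refine Finset.sum_congr rfl fun x _ => ?_
      have : (A x - B x) ^ 2 = ∑ y, dlt x y * (A x - B y) ^ 2 := by
        simp [dlt]
      rw [this, ← Finset.sum_sub_distrib]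
      refine Finset.sum_congr rfl fun y _ => ?_
      ring
    have e2 : ∑ x, (A x - B x) ^ 2 ≤ 2 * M * (mu A - mu B) ^ 2 + 2 * (vr A + vr B) := by
      have e3 : ∑ x : I M, ((A x - mu A) * (2 * (mu A - mu B)) + (B x - mu B) * (-2 * (mu A - mu B)) +
          (A x - mu A) ^ 2 * 2 + (B x - mu B) ^ 2 * 2 + 1 * (mu A - mu B) ^ 2) =
          2 * M * (mu A - mu B) ^ 2 + 2 * (vr A + vr B) := by
        simp only [Finset.sum_add_distrib, ← Finset.sum_mul]
        rw [dev hM A, dev hM B, s_one]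
        unfold vr
        ring
      rw [← e3]
      refine Finset.sum_le_sum fun x _ => ?_
      nlinarith [sq_nonneg ((A x - mu A) + (B x - mu B))]
    rw [e1, all_sq hM A B]
    linarith

end Pool.Agent.TH230.KL
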